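import Mathlib

/-!
# The formal identity behind the additivity of the trace of the logarithm
-/

set_option autoImplicit false

open Polynomial

universe u

namespace Pool.Agent.H71.WH

variable {R : Type u} [Ring R]

/-- vanishing up to degree `n` -/
def Van (n : ℕ) (P : R[X]) : Prop := ∀ i ≤ n, P.coeff i = 0

theorem Van.mul_right {n : ℕ} {P : R[X]} (h : Van n P) (Q : R[X]) : Van n (P * Q) := by
  intro i hi
  rw [coeff_mul]
  apply Finset.sum_eq_zero
  intro p hp
  have := Finset.HasAntidiagonal.mem_antidiagonal.1 hp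
  rw [h p.1 (by omega), zero_mul]

theorem Van.mul_left {n : ℕ} {P : R[X]} (h : Van n P) (Q : R[X]) : Van n (Q * P) := by
  intro i hi
  rw [coeff_mul]
  apply Finset.sum_eq_zero
  intro p hp
  have := Finset.HasAntidiagonal.mem_antidiagonal.1 hp
  rw [h p.2 (by omega), mul_zero]

theorem Van.add {n : ℕ} {P Q : R[X]} (h : Van n P) (h' : Van n Q) : Van n (P + Q) := by
  intro i hi
  rw [coeff_add, h i hi, h' i hi, add_zero]

theorem Van.sub {n : ℕ} {P Q : R[X]} (h : Van n P) (h' : Van n Q) : Van n (P - Q) := by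
  intro i hi
  rw [coeff_sub, h i hi, h' i hi, sub_zero]

theorem van_pow {n : ℕ} {P : R[X]} (h : P.coeff 0 = 0) : Van n (P ^ (n + 1)) := by
  have key : ∀ m : ℕ, ∀ i < m, (P ^ m).coeff i = 0 := by
    intro m
    induction m with
    | zero => intro i hi; omega
    | succ m ih =>
      intro i hi
      rw [pow_succ, coeff_mul]
      apply Finset.sum_eq_zero
      intro p hp
      have hp' := Finset.HasAntidiagonal.mem_antidiagonal.1 hp
      by_cases h0 : p.2 = 0
      · rw [h0, h, mul_zero]
      · rw [ih p.1 (by omega), zero_mul]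
  intro i hi
  exact key _ _ (by omega)

/-- truncated geometric series -/
noncomputable def geo (n : ℕ) (P : R[X]) : R[X] := ∑ j ∈ Finset.range (n + 1), (-1) ^ j * P ^ j

theorem geo_mul (n : ℕ) (P : R[X]) : geo n P * (1 + P) = 1 - (-P) ^ (n + 1) := by
  have h := geom_sum_mul (-P) (n + 1)
  have h2 : geo n P = ∑ j ∈ Finset.range (n + 1), (-P) ^ j := by
    apply Finset.sum_congr rfl
    intro j _
    rw [neg_pow P j]
  rw [h2]
  have h3 : (1 + P) = -(-P - 1) := by abel
  rw [h3, mul_neg, h, neg_sub]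

theorem mul_geo (n : ℕ) (P : R[X]) : (1 + P) * geo n P = 1 - (-P) ^ (n + 1) := by
  have h := mul_geom_sum (-P) (n + 1)
  have h2 : geo n P = ∑ j ∈ Finset.range (n + 1), (-P) ^ j := by
    apply Finset.sum_congr rfl
    intro j _
    rw [neg_pow P j]
  rw [h2]
  have h3 : (1 + P) = -(-P - 1) := by abel
  rw [h3, neg_mul, h, neg_sub]

theorem van_geo_mul (n : ℕ) {P : R[X]} (h : P.coeff 0 = 0) : Van n (geo n P * (1 + P) - 1) := by
  rw [geo_mul]
  have : (1 - (-P) ^ (n + 1) - 1 : R[X]) = -((-P) ^ (n + 1)) := by abel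
  rw [this]
  intro i hi
  rw [coeff_neg, van_pow (P := -P) (n := n) (by rw [coeff_neg, h, neg_zero]) i hi, neg_zero]

theorem van_mul_geo (n : ℕ) {P : R[X]} (h : P.coeff 0 = 0) : Van n ((1 + P) * geo n P - 1) := by
  rw [mul_geo]
  have : (1 - (-P) ^ (n + 1) - 1 : R[X]) = -((-P) ^ (n + 1)) := by abel
  rw [this]
  intro i hi
  rw [coeff_neg, van_pow (P := -P) (n := n) (by rw [coeff_neg, h, neg_zero]) i hi, neg_zero]

theorem derivative_pow_nc (A : R[X]) (k : ℕ) : derivative (A ^ (k + 1)) =
    ∑ i ∈ Finset.range (k + 1), A ^ i * derivative A * A ^ (k - i) := by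
  induction k with
  | zero => simp
  | succ k ih =>
    rw [pow_succ, derivative_mul, ih, Finset.sum_range_succ _ (k + 1), Finset.sum_mul]
    congr 1
    · apply Finset.sum_congr rfl
      intro i hi
      have : i ≤ k := Nat.lt_succ_iff.1 (Finset.mem_range.1 hi)
      rw [mul_assoc _ (A ^ (k - i)) A, ← pow_succ]
      congr 2
      omega
    · simp

end Pool.Agent.H71.WH
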