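import Mathlib

/-!
# The trace of the `2`-adic logarithm

For a ring `R`, a homomorphism `τ : R → ℤ` and `x ∈ 2 R` let
`tl τ x = ∑ (-1)^k τ(x^(k+1)) / (k+1)`, the value of `τ` on `log (1 + x)`. If `τ` is a trace then
`tl τ` is additive: `tl τ (x + y + x y) = tl τ x + tl τ y`.
-/

set_option autoImplicit false

open Polynomial

universe u v

namespace Pool.Agent.H71.WH

variable {R : Type u} [Ring R]

/-- the polynomial of the formal identity -/
noncomputable def poly (x y : R) : R[X] := C x * X + C y * X + C (x * y) * X ^ 2

theorem poly_zero (x y : R) : (poly x y).coeff 0 = 0 := by simp [poly]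

end Pool.Agent.H71.WH
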